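import Pool.Agent.Helper1.IM.St2

/-!
# Project IM: tools (extensions of words up to permutation and up to Sim, renamings)
-/

set_option autoImplicit false

namespace Helper1.IM.T99

open Helper1.IM

theorem oc_count (i : ℕ) (u : Wd) : oc i u = u.count (i, false) + u.count (i, true) := by
  induction u with
  | nil => simp
  | cons a u ih =>
    rcases a with ⟨j, s⟩
    rw [oc_cons, ih, List.count_cons, List.count_cons]
    by_cases hj : j = i
    · subst hj
      cases s <;> simp <;> omega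
    · have h1 : ¬ ((j, s) = (i, false)) := fun h => hj (congrArg Prod.fst h)
      have h2 : ¬ ((j, s) = (i, true)) := fun h => hj (congrArg Prod.fst h)
      simp [hj]

theorem ext_perm (w l : Wd) (h : ∀ a ∈ l, l.count a ≤ w.count a) :
    ∃ r, w.Perm (l ++ r) ∧ l.length + r.length = w.length := by
  have h1 := List.subperm_append_diff_self_of_count_le h
  refine ⟨w.diff l, h1.symm, ?_⟩
  have := h1.length_eq
  simpa using this

theorem ext_perm' (w l : List ℕ) (h : ∀ a ∈ l, l.count a ≤ w.count a) :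
    ∃ r, w.Perm (l ++ r) ∧ l.length + r.length = w.length := by
  have h1 := List.subperm_append_diff_self_of_count_le h
  refine ⟨w.diff l, h1.symm, ?_⟩
  have := h1.length_eq
  simpa using this

theorem oc_one_unique {i : ℕ} {w : Wd} (h : oc i w = 1) {s t : Bool} (hs : (i, s) ∈ w)
    (ht : (i, t) ∈ w) : s = t := by
  rw [oc_count] at h
  have h1 := List.count_pos_iff.2 hs
  have h2 := List.count_pos_iff.2 ht
  cases s <;> cases t <;> first | rfl | omega

theorem ext_sim (w l : Wd) (h : ∀ i ∈ ct l, oc i l ≤ oc i w)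
    (hs : ∀ c ∈ l, oc c.1 w = 1 → c ∈ w) :
    ∃ r, Sim w (l ++ r) ∧ l.length + r.length = w.length := by
  classical
  obtain ⟨r0, hr0, hlen⟩ := ext_perm' (w.map Prod.fst) (l.map Prod.fst) (by
    intro a ha
    have : a ∈ ct l := by simpa [ct] using ha
    exact h a this)
  refine ⟨r0.map (fun i => if (i, false) ∈ w then (i, false) else (i, true)), ?_, by simpa using hlen⟩
  have hfst : (r0.map (fun i => if (i, false) ∈ w then ((i, false) : Lt) else (i, true))).map Prod.fst
      = r0 := by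
    rw [List.map_map]
    conv_rhs => rw [← List.map_id r0]
    apply List.map_congr_left
    intro i _
    simp only [Function.comp]
    split_ifs <;> rfl
  refine ⟨?_, ?_⟩
  · rw [List.map_append, hfst]
    exact hr0
  · intro i hi
    constructor
    · intro hm
      have h1 : i ∈ (w.map Prod.fst) := List.mem_map.2 ⟨_, hm, rfl⟩
      have h2 := (hr0.mem_iff).1 h1
      rcases List.mem_append.1 h2 with h3 | h3
      · obtain ⟨c, hc, hci⟩ := List.mem_map.1 h3
        rcases c with ⟨j, s⟩
        simp only at hci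
        subst hci
        have h4 := hs _ hc hi
        have h5 := oc_one_unique hi h4 hm
        subst h5
        exact List.mem_append_left _ hc
      · apply List.mem_append_right
        rw [List.mem_map]
        exact ⟨i, h3, by simp [hm]⟩
    · intro hm
      rcases List.mem_append.1 hm with h3 | h3
      · exact hs _ h3 hi
      · obtain ⟨j, _, hj⟩ := List.mem_map.1 h3
        split_ifs at hj with hjw
        · rw [← hj]; exact hjw
        · simp at hj

theorem ren {k : ℕ} (c : Fin k → Lt) (hc : Function.Injective (fun i => (c i).1)) :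
    ∃ (p : Equiv.Perm ℕ) (e : ℕ → Bool), ∀ i : Fin k, ((p i.1, e i.1) : Lt) = c i := by
  classical
  obtain ⟨p, hp⟩ := exists_perm_extend (Finset.range k)
    (fun i => if h : i < k then (c ⟨i, h⟩).1 else 0) (by
      intro i hi j hj hij
      simp only [Finset.coe_range, Set.mem_Iio] at hi hj
      simp only [hi, hj, dif_pos] at hij
      have := hc hij
      simpa using this)
  refine ⟨p, fun i => if h : i < k then (c ⟨i, h⟩).2 else false, ?_⟩
  intro i
  have h1 := hp i.1 (Finset.mem_range.2 i.2)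
  simp only [i.2, dif_pos] at h1 ⊢
  rw [h1]

theorem ren2 (a b : Lt) (hab : a.1 ≠ b.1) :
    ∃ (p : Equiv.Perm ℕ) (e : ℕ → Bool), ((p 0, e 0) : Lt) = a ∧ ((p 1, e 1) : Lt) = b := by
  obtain ⟨p, e, h⟩ := ren ![a, b] (by
    intro i j hij
    fin_cases i <;> fin_cases j <;> simp_all)
  exact ⟨p, e, h 0, h 1⟩

theorem ren3 (a b c : Lt) (hab : a.1 ≠ b.1) (hac : a.1 ≠ c.1) (hbc : b.1 ≠ c.1) :
    ∃ (p : Equiv.Perm ℕ) (e : ℕ → Bool), ((p 0, e 0) : Lt) = a ∧ ((p 1, e 1) : Lt) = b ∧
      ((p 2, e 2) : Lt) = c := by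
  obtain ⟨p, e, h⟩ := ren ![a, b, c] (by
    intro i j hij
    fin_cases i <;> fin_cases j <;> simp_all)
  exact ⟨p, e, h 0, h 1, h 2⟩

theorem ren4 (a b c d : Lt) (hab : a.1 ≠ b.1) (hac : a.1 ≠ c.1) (had : a.1 ≠ d.1)
    (hbc : b.1 ≠ c.1) (hbd : b.1 ≠ d.1) (hcd : c.1 ≠ d.1) :
    ∃ (p : Equiv.Perm ℕ) (e : ℕ → Bool), ((p 0, e 0) : Lt) = a ∧ ((p 1, e 1) : Lt) = b ∧
      ((p 2, e 2) : Lt) = c ∧ ((p 3, e 3) : Lt) = d := by
  obtain ⟨p, e, h⟩ := ren ![a, b, c, d] (by
    intro i j hij
    fin_cases i <;> fin_cases j <;> simp_all)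
  exact ⟨p, e, h 0, h 1, h 2, h 3⟩

/-- image of the standard letters under a renaming -/
theorem rw'_X (p : Equiv.Perm ℕ) (e : ℕ → Bool) (i : ℕ) (u : Wd) :
    rw' p e (X i :: u) = (p i, e i) :: rw' p e u := by
  rw [rw'_cons]
  simp [X]

theorem rw'_Y (p : Equiv.Perm ℕ) (e : ℕ → Bool) (i : ℕ) (u : Wd) :
    rw' p e (Y i :: u) = fl (p i, e i) :: rw' p e u := by
  rw [rw'_cons]
  simp [Y, fl]

/-- a word with a letter occurring twice is not linear -/
theorem not_lin {i : ℕ} {u : Wd} (h : 2 ≤ oc i u) : ¬ Lin u := by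
  rw [lin_iff]
  intro h1
  have := h1 i
  omega

theorem exists_two {u : Wd} (h : ¬ Lin u) : ∃ i, 2 ≤ oc i u := by
  rw [lin_iff] at h
  push Not at h
  obtain ⟨i, hi⟩ := h
  exact ⟨i, by omega⟩

/-- substitution instance of a word -/
theorem sb_fix {f : ℕ → Wd} {u : Wd} (h : ∀ i ∈ ct u, f i = [X i]) : sb f u = u := by
  rw [sb_congr f (fun j => [(j, false)]) u h, sb_id]

theorem sim_of_perm {u v : Wd} (h : u.Perm v) : Sim u v :=
  ⟨h.map _, fun _ _ => h.mem_iff⟩

end Helper1.IM.T99
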